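import Pool.Agent.H66.MW.Dens

/-!
# Sets of integral vectors which are approximated by residue classes (helper66)
-/

set_option autoImplicit false

open Filter Topology Finset

namespace Pool.Agent.H66.MW

variable {r : ℕ}

/-- Outside of `Z`, the set `S` is, up to a small proportion of the residue classes, a union of
residue classes, for moduli all of whose prime divisors are in `P`. -/
def Appr (Z : Set (Fin r → ℤ)) (P : Set ℕ) (S : Set (Fin r → ℤ)) : Prop :=
  ∀ ε : ℝ, 0 < ε → ∃ m : ℕ, 0 < m ∧ (∀ q : ℕ, q.Prime → q ∣ m → q ∈ P) ∧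
    ∃ G U : Finset (Fin r → ZMod m), G ⊆ U ∧ (∀ t, t ∉ Z → cl m t ∈ G → t ∈ S) ∧
      (∀ t, t ∉ Z → t ∈ S → cl m t ∈ U) ∧ (U.card : ℝ) - G.card ≤ ε * (m : ℝ) ^ r

theorem inner_le {Z S : Set (Fin r → ℤ)} {δ : ℝ} (hZ : HasDensity Z 0)
    (hδ : HasDensity (S \ Z) δ) {m : ℕ} (hm : 0 < m) {G : Finset (Fin r → ZMod m)}
    (h : ∀ t, t ∉ Z → cl m t ∈ G → t ∈ S) : (G.card : ℝ) / (m : ℝ) ^ r ≤ δ := by
  have h1 := dens_class hm G
  have h2 : Tendsto (fun B => prop (S \ Z) B + prop Z B) atTop (𝓝 (δ + 0)) := hδ.add hZ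
  rw [add_zero] at h2
  refine le_of_tendsto_of_tendsto' h1 h2 fun B => ?_
  refine (prop_mono ?_ B).trans (prop_union_le _ _ B)
  intro t ht
  by_cases hz : t ∈ Z
  · exact Or.inr hz
  · exact Or.inl ⟨h t hz ht, hz⟩

theorem le_outer {Z S : Set (Fin r → ℤ)} {δ : ℝ}
    (hδ : HasDensity (S \ Z) δ) {m : ℕ} (hm : 0 < m) {U : Finset (Fin r → ZMod m)}
    (h : ∀ t, t ∉ Z → t ∈ S → cl m t ∈ U) : δ ≤ (U.card : ℝ) / (m : ℝ) ^ r := by
  refine le_of_tendsto_of_tendsto' hδ (dens_class hm U) fun B => prop_mono ?_ B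
  intro t ht
  exact h t ht.2 ht.1

theorem exists_dens {Z S : Set (Fin r → ℤ)} {P : Set ℕ} (hZ : HasDensity Z 0)
    (hA : Appr Z P S) : ∃ δ : ℝ, HasDensity (S \ Z) δ := by
  apply cauchySeq_tendsto_of_complete
  rw [Metric.cauchySeq_iff']
  intro ε hε
  obtain ⟨m, hm, _, G, U, hGU, hG, hU, hc⟩ := hA (ε / 8) (by positivity)
  have hmr : (0 : ℝ) < (m : ℝ) ^ r := by positivity
  set g := (G.card : ℝ) / (m : ℝ) ^ r with hg
  set u := (U.card : ℝ) / (m : ℝ) ^ r with hu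
  have hug : u ≤ g + ε / 8 := by
    rw [hu, hg, div_add' _ _ _ hmr.ne']
    apply div_le_div_of_nonneg_right _ hmr.le
    linarith
  have e1 : ∀ᶠ B in atTop, g - ε / 8 < prop {t : Fin r → ℤ | cl m t ∈ G} B :=
    (dens_class hm G).eventually_const_lt (by linarith)
  have e2 : ∀ᶠ B in atTop, prop {t : Fin r → ℤ | cl m t ∈ U} B < u + ε / 8 :=
    (dens_class hm U).eventually_lt_const (by linarith)
  have e3 : ∀ᶠ B in atTop, prop Z B < ε / 8 := hZ.eventually_lt_const (by positivity)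
  obtain ⟨N, hN⟩ := eventually_atTop.1 (e1.and (e2.and e3))
  have key : ∀ B, N ≤ B → g - ε / 4 < prop (S \ Z) B ∧ prop (S \ Z) B < g + ε / 4 := by
    intro B hB
    obtain ⟨a1, a2, a3⟩ := hN B hB
    have b1 : prop {t : Fin r → ℤ | cl m t ∈ G} B ≤ prop (S \ Z) B + prop Z B := by
      refine (prop_mono ?_ B).trans (prop_union_le _ _ B)
      intro t ht
      by_cases hz : t ∈ Z
      · exact Or.inr hz
      · exact Or.inl ⟨hG t hz ht, hz⟩
    have b2 : prop (S \ Z) B ≤ prop {t : Fin r → ℤ | cl m t ∈ U} B :=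
      prop_mono (fun t ht => hU t ht.2 ht.1) B
    constructor <;> linarith
  refine ⟨N, fun B hB => ?_⟩
  obtain ⟨a1, a2⟩ := key B hB
  obtain ⟨b1, b2⟩ := key N le_rfl
  rw [Real.dist_eq, abs_lt]
  constructor <;> linarith

theorem dens_compl {Z : Set (Fin r → ℤ)} (hZ : HasDensity Z 0) :
    HasDensity (Set.univ \ Z) 1 := by
  have h1 : Tendsto (fun B => 1 - prop Z B) atTop (𝓝 (1 - 0)) := tendsto_const_nhds.sub hZ
  rw [sub_zero] at h1
  refine tendsto_of_tendsto_of_tendsto_of_le_of_le h1 tendsto_const_nhds (fun B => ?_) (fun B => ?_)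
  · have h2 := prop_union_le (Set.univ \ Z) Z B
    have h3 : (Set.univ : Set (Fin r → ℤ)) ⊆ (Set.univ \ Z) ∪ Z := by
      intro t _
      by_cases hz : t ∈ Z
      · exact Or.inr hz
      · exact Or.inl ⟨trivial, hz⟩
    have h4 := prop_mono h3 B
    rw [prop_univ] at h4
    show 1 - prop Z B ≤ prop (Set.univ \ Z) B
    linarith
  · have h2 := prop_mono (Set.subset_univ (Set.univ \ Z)) B
    rwa [prop_univ] at h2

theorem card_le_pow {m : ℕ} (hm : 0 < m) (G : Finset (Fin r → ZMod m)) :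
    (G.card : ℝ) ≤ (m : ℝ) ^ r := by
  have : NeZero m := ⟨hm.ne'⟩
  have h := Finset.card_le_univ G
  rw [Fintype.card_fun, ZMod.card, Fintype.card_fin] at h
  exact_mod_cast h

/-- the Chinese remainder theorem for vectors -/
noncomputable def crt {m m' : ℕ} (h : m.Coprime m') :
    (Fin r → ZMod (m * m')) ≃ (Fin r → ZMod m) × (Fin r → ZMod m') :=
  (Equiv.piCongrRight fun _ => (ZMod.chineseRemainder h).toEquiv).trans
    (Equiv.arrowProdEquivProdArrow _ _ _)

theorem crt_cl {m m' : ℕ} (h : m.Coprime m') (t : Fin r → ℤ) :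
    crt h (cl (m * m') t) = (cl m t, cl m' t) := by
  have key : ∀ z : ℤ, ZMod.chineseRemainder h (z : ZMod (m * m')) = ((z : ZMod m), (z : ZMod m')) := by
    intro z
    rw [map_intCast]
    rfl
  apply Prod.ext
  · funext i
    exact congrArg Prod.fst (key (t i))
  · funext i
    exact congrArg Prod.snd (key (t i))

theorem appr_inter {Z S T : Set (Fin r → ℤ)} {P Q : Set ℕ} (hZ : HasDensity Z 0)
    (hS : Appr Z P S) (hT : Appr Z Q T) (hd : ∀ q : ℕ, q.Prime → q ∈ P → q ∉ Q)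
    {δ τ : ℝ} (hδ : HasDensity (S \ Z) δ) (hτ : HasDensity (T \ Z) τ) :
    Appr Z (P ∪ Q) (S ∩ T) ∧ HasDensity ((S ∩ T) \ Z) (δ * τ) := by
  classical
  -- the construction for one `ε`
  have main : ∀ ε : ℝ, 0 < ε → ∃ m m' : ℕ, 0 < m ∧ 0 < m' ∧
      (∀ q : ℕ, q.Prime → q ∣ m * m' → q ∈ P ∪ Q) ∧
      ∃ (G U : Finset (Fin r → ZMod m)) (G' U' : Finset (Fin r → ZMod m'))
        (GG UU : Finset (Fin r → ZMod (m * m'))), GG ⊆ UU ∧
        (∀ t, t ∉ Z → cl (m * m') t ∈ GG → t ∈ S ∩ T) ∧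
        (∀ t, t ∉ Z → t ∈ S ∩ T → cl (m * m') t ∈ UU) ∧
        GG.card = G.card * G'.card ∧ UU.card = U.card * U'.card ∧
        (U.card : ℝ) - G.card ≤ ε * (m : ℝ) ^ r ∧ (U'.card : ℝ) - G'.card ≤ ε * (m' : ℝ) ^ r ∧
        (G.card : ℝ) ≤ U.card ∧ (G'.card : ℝ) ≤ U'.card ∧
        (G.card : ℝ) / (m : ℝ) ^ r ≤ δ ∧ δ ≤ (U.card : ℝ) / (m : ℝ) ^ r ∧
        (G'.card : ℝ) / (m' : ℝ) ^ r ≤ τ ∧ τ ≤ (U'.card : ℝ) / (m' : ℝ) ^ r := by
    intro ε hε
    obtain ⟨m, hm, hmP, G, U, hGU, hG, hU, hc⟩ := hS ε hε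
    obtain ⟨m', hm', hmQ, G', U', hGU', hG', hU', hc'⟩ := hT ε hε
    have hcop : m.Coprime m' := by
      apply Nat.Coprime.symm
      apply Nat.coprime_of_dvd
      intro q hq h1 h2
      exact hd q hq (hmP q hq h2) (hmQ q hq h1)
    have hmem : ∀ (A : Finset (Fin r → ZMod m)) (A' : Finset (Fin r → ZMod m')) (t : Fin r → ℤ),
        cl (m * m') t ∈ (A ×ˢ A').map (crt hcop).symm.toEmbedding ↔ cl m t ∈ A ∧ cl m' t ∈ A' := by
      intro A A' t
      rw [Finset.mem_map_equiv, Equiv.symm_symm, crt_cl, Finset.mem_product]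
    refine ⟨m, m', hm, hm', ?_, G, U, G', U',
      (G ×ˢ G').map (crt hcop).symm.toEmbedding, (U ×ˢ U').map (crt hcop).symm.toEmbedding,
      Finset.map_subset_map.2 (Finset.product_subset_product hGU hGU'), ?_, ?_, ?_, ?_, hc, hc',
      by exact_mod_cast Finset.card_le_card hGU, by exact_mod_cast Finset.card_le_card hGU',
      inner_le hZ hδ hm hG, le_outer hδ hm hU, inner_le hZ hτ hm' hG', le_outer hτ hm' hU'⟩
    · intro q hq hqm
      rcases hq.dvd_mul.1 hqm with h | h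
      · exact Or.inl (hmP q hq h)
      · exact Or.inr (hmQ q hq h)
    · intro t hz ht
      obtain ⟨h1, h2⟩ := (hmem _ _ t).1 ht
      exact ⟨hG t hz h1, hG' t hz h2⟩
    · intro t hz ht
      exact (hmem _ _ t).2 ⟨hU t hz ht.1, hU' t hz ht.2⟩
    · rw [Finset.card_map, Finset.card_product]
    · rw [Finset.card_map, Finset.card_product]
  have hA : Appr Z (P ∪ Q) (S ∩ T) := by
    intro ε hε
    obtain ⟨m, m', hm, hm', hq, G, U, G', U', GG, UU, h1, h2, h3, h4, h5, h6, h7, h8, h9, _⟩ :=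
      main (ε / 2) (by positivity)
    refine ⟨m * m', Nat.mul_pos hm hm', hq, GG, UU, h1, h2, h3, ?_⟩
    rw [h4, h5]
    push_cast
    have c1 := card_le_pow hm U
    have c2 := card_le_pow hm' G'
    have p1 : (0 : ℝ) < (m : ℝ) ^ r := by positivity
    have p2 : (0 : ℝ) < (m' : ℝ) ^ r := by positivity
    have e : (U.card : ℝ) * U'.card - G.card * G'.card =
        U.card * ((U'.card : ℝ) - G'.card) + ((U.card : ℝ) - G.card) * G'.card := by ring
    rw [e, mul_pow]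
    have t1 : (U.card : ℝ) * ((U'.card : ℝ) - G'.card) ≤ (m : ℝ) ^ r * (ε / 2 * (m' : ℝ) ^ r) :=
      mul_le_mul c1 h7 (by linarith) p1.le
    have t2 : ((U.card : ℝ) - G.card) * G'.card ≤ (ε / 2 * (m : ℝ) ^ r) * (m' : ℝ) ^ r :=
      mul_le_mul h6 c2 (by positivity) (by positivity)
    calc _ ≤ (m : ℝ) ^ r * (ε / 2 * (m' : ℝ) ^ r) + (ε / 2 * (m : ℝ) ^ r) * (m' : ℝ) ^ r :=
          add_le_add t1 t2
      _ = ε * ((m : ℝ) ^ r * (m' : ℝ) ^ r) := by ring
  refine ⟨hA, ?_⟩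
  obtain ⟨σ, hσ⟩ := exists_dens hZ hA
  have hclose : ∀ ε : ℝ, 0 < ε → |σ - δ * τ| ≤ 2 * ε := by
    intro ε hε
    obtain ⟨m, m', hm, hm', hq, G, U, G', U', GG, UU, h1, h2, h3, h4, h5, h6, h7, h8, h9,
      d1, d2, d3, d4⟩ := main ε hε
    have i1 := inner_le hZ hσ (Nat.mul_pos hm hm') h2
    have i2 := le_outer hσ (Nat.mul_pos hm hm') h3
    have p1 : (0 : ℝ) < (m : ℝ) ^ r := by positivity
    have p2 : (0 : ℝ) < (m' : ℝ) ^ r := by positivity
    rw [h4] at i1
    rw [h5] at i2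
    push_cast at i1 i2
    rw [mul_pow, mul_div_mul_comm] at i1 i2
    set g := (G.card : ℝ) / (m : ℝ) ^ r with hg
    set u := (U.card : ℝ) / (m : ℝ) ^ r with hu
    set g' := (G'.card : ℝ) / (m' : ℝ) ^ r with hg'
    set u' := (U'.card : ℝ) / (m' : ℝ) ^ r with hu'
    have g0 : 0 ≤ g := by positivity
    have g0' : 0 ≤ g' := by positivity
    have u1 : u ≤ 1 := by rw [hu, div_le_one p1]; exact card_le_pow hm U
    have u1' : u' ≤ 1 := by rw [hu', div_le_one p2]; exact card_le_pow hm' U'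
    have ug : u - g ≤ ε := by
      rw [hu, hg, ← sub_div, div_le_iff₀ p1]; exact h6
    have ug' : u' - g' ≤ ε := by
      rw [hu', hg', ← sub_div, div_le_iff₀ p2]; exact h7
    have q1 : g * g' ≤ δ * τ := mul_le_mul d1 d3 g0' (g0.trans d1)
    have q2 : δ * τ ≤ u * u' := mul_le_mul d2 d4 (g0'.trans d3) (g0.trans (d1.trans d2))
    have q3 : u * u' - g * g' ≤ 2 * ε := by
      have e : u * u' - g * g' = u * (u' - g') + (u - g) * g' := by ring
      have hu0 : 0 ≤ u := g0.trans (d1.trans d2)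
      have g1' : g' ≤ 1 := d3.trans (d4.trans u1')
      have x1 : u * (u' - g') ≤ 1 * ε :=
        mul_le_mul u1 ug' (by linarith [d3.trans d4]) zero_le_one
      have x2 : (u - g) * g' ≤ ε * 1 :=
        mul_le_mul ug g1' g0' hε.le
      linarith
    rw [abs_le]
    constructor <;> linarith
  have : σ = δ * τ := by
    by_contra hne
    have hpos : 0 < |σ - δ * τ| := abs_pos.2 (sub_ne_zero.2 hne)
    have := hclose (|σ - δ * τ| / 4) (by positivity)
    linarith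
  rw [← this]
  exact hσ

/-- the density of the intersection is the product of the densities -/
theorem appr_biInter {Z : Set (Fin r → ℤ)} (hZ : HasDensity Z 0) (s : Finset ℕ)
    (A : ℕ → Set (Fin r → ℤ)) (hA : ∀ p ∈ s, Appr Z {p} (A p)) (δ : ℕ → ℝ)
    (hδ : ∀ p ∈ s, HasDensity (A p \ Z) (δ p)) :
    Appr Z s {t | ∀ p ∈ s, t ∈ A p} ∧ HasDensity ({t | ∀ p ∈ s, t ∈ A p} \ Z) (∏ p ∈ s, δ p) := by
  classical
  induction s using Finset.induction_on with
  | empty =>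
    have h0 : {t : Fin r → ℤ | ∀ p ∈ (∅ : Finset ℕ), t ∈ A p} = Set.univ := by
      ext t; simp
    rw [h0, Finset.prod_empty]
    refine ⟨?_, dens_compl hZ⟩
    intro ε hε
    refine ⟨1, one_pos, ?_, Finset.univ, Finset.univ, Finset.Subset.refl _, ?_, ?_, ?_⟩
    · intro q hq h1
      exact absurd (Nat.dvd_one.1 h1) hq.one_lt.ne'
    · intro t _ _; trivial
    · intro t _ _; exact Finset.mem_univ _
    · simp only [sub_self]; positivity
  | insert p s hp ih =>
    obtain ⟨ih1, ih2⟩ := ih (fun q hq => hA q (Finset.mem_insert_of_mem hq))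
      (fun q hq => hδ q (Finset.mem_insert_of_mem hq))
    have h0 : {t : Fin r → ℤ | ∀ q ∈ insert p s, t ∈ A q} = A p ∩ {t | ∀ q ∈ s, t ∈ A q} := by
      ext t; simp
    rw [h0, Finset.prod_insert hp]
    obtain ⟨k1, k2⟩ := appr_inter hZ (hA p (Finset.mem_insert_self p s)) ih1
      (by
        intro q _ hq hqs
        rw [Set.mem_singleton_iff] at hq
        subst hq
        exact hp hqs) (hδ p (Finset.mem_insert_self p s)) ih2
    refine ⟨?_, k2⟩
    intro ε hε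
    obtain ⟨m, hm, hq, h⟩ := k1 ε hε
    refine ⟨m, hm, fun q hq1 hq2 => ?_, h⟩
    have := hq q hq1 hq2
    simpa using this

end Pool.Agent.H66.MW
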