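import Mathlib

/-!
# Natural densities of sets of integral vectors (helper66)
-/

set_option autoImplicit false

open Filter Topology Finset

namespace Pool.Agent.H66.MW

/-- the proportion of the elements of `S` among the integral vectors `t` with `|t i| ≤ B` -/
noncomputable def prop {r : ℕ} (S : Set (Fin r → ℤ)) (B : ℕ) : ℝ :=
  ({t : Fin r → ℤ | (∀ i, |t i| ≤ (B : ℤ)) ∧ t ∈ S}.ncard : ℝ) / (2 * (B : ℝ) + 1) ^ r

/-- `S` has the natural density `δ` -/
def HasDensity {r : ℕ} (S : Set (Fin r → ℤ)) (δ : ℝ) : Prop :=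
  Tendsto (prop S) atTop (𝓝 δ)

/-- the box -/
noncomputable def box (r B : ℕ) : Finset (Fin r → ℤ) := Fintype.piFinset fun _ => Finset.Icc (-(B : ℤ)) B

theorem mem_box {r B : ℕ} (t : Fin r → ℤ) : t ∈ box r B ↔ ∀ i, |t i| ≤ (B : ℤ) := by
  unfold box
  rw [Fintype.mem_piFinset]
  refine forall_congr' fun i => ?_
  rw [Finset.mem_Icc, abs_le]

theorem card_box (r B : ℕ) : ((box r B).card : ℝ) = (2 * (B : ℝ) + 1) ^ r := by
  unfold box
  rw [Fintype.card_piFinset]
  simp only [Int.card_Icc, Finset.prod_const, Finset.card_univ, Fintype.card_fin]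
  have h : (((B : ℤ) + 1 - -(B : ℤ)).toNat : ℝ) = 2 * (B : ℝ) + 1 := by
    have : ((B : ℤ) + 1 - -(B : ℤ)).toNat = 2 * B + 1 := by omega
    rw [this]; push_cast; ring
  push_cast
  rw [h]

theorem prop_eq {r : ℕ} {S : Set (Fin r → ℤ)} {B : ℕ} (F : Finset (Fin r → ℤ))
    (hF : ∀ t, t ∈ F ↔ t ∈ box r B ∧ t ∈ S) :
    prop S B = (F.card : ℝ) / (2 * (B : ℝ) + 1) ^ r := by
  unfold prop
  congr 2
  rw [← Set.ncard_coe_finset]
  congr 1
  ext t
  rw [Finset.mem_coe, hF, mem_box]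
  rfl

theorem pos_den (r B : ℕ) : (0 : ℝ) < (2 * (B : ℝ) + 1) ^ r := by positivity

theorem prop_mono {r : ℕ} {S T : Set (Fin r → ℤ)} (h : S ⊆ T) (B : ℕ) : prop S B ≤ prop T B := by
  classical
  rw [prop_eq ((box r B).filter fun t => t ∈ S) (fun t => Finset.mem_filter),
    prop_eq ((box r B).filter fun t => t ∈ T) (fun t => Finset.mem_filter)]
  apply div_le_div_of_nonneg_right _ (pos_den r B).le
  exact_mod_cast Finset.card_le_card (Finset.monotone_filter_right _ fun t _ ht => h ht)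

theorem prop_union_le {r : ℕ} (S T : Set (Fin r → ℤ)) (B : ℕ) :
    prop (S ∪ T) B ≤ prop S B + prop T B := by
  classical
  rw [prop_eq ((box r B).filter fun t => t ∈ S) (fun t => Finset.mem_filter),
    prop_eq ((box r B).filter fun t => t ∈ T) (fun t => Finset.mem_filter),
    prop_eq (((box r B).filter fun t => t ∈ S) ∪ ((box r B).filter fun t => t ∈ T)) (fun t => by
      simp only [Finset.mem_filter, Finset.mem_union, Set.mem_union]
      tauto), ← add_div]
  apply div_le_div_of_nonneg_right _ (pos_den r B).le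
  exact_mod_cast Finset.card_union_le _ _

theorem prop_univ {r : ℕ} (B : ℕ) : prop (Set.univ : Set (Fin r → ℤ)) B = 1 := by
  rw [prop_eq (box r B) (fun t => by simp), card_box, div_self (pos_den r B).ne']

theorem prop_nonneg {r : ℕ} (S : Set (Fin r → ℤ)) (B : ℕ) : 0 ≤ prop S B := by
  unfold prop; positivity

theorem HasDensity.unique {r : ℕ} {S : Set (Fin r → ℤ)} {a b : ℝ} (ha : HasDensity S a)
    (hb : HasDensity S b) : a = b := tendsto_nhds_unique ha hb

/-- residue class of a vector -/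
def cl {r : ℕ} (m : ℕ) (t : Fin r → ℤ) : Fin r → ZMod m := fun i => (t i : ZMod m)

/-- number of integers in an interval in a residue class -/
theorem count_class {m : ℕ} (hm : 0 < m) (c : ZMod m) (B : ℕ) [DecidablePred fun z : ℤ => (z : ZMod m) = c] :
    |((((Finset.Icc (-(B : ℤ)) B).filter fun z : ℤ => (z : ZMod m) = c).card : ℕ) : ℝ) -
      (2 * (B : ℝ) + 1) / m| ≤ 1 := by
  obtain ⟨v, rfl⟩ := ZMod.intCast_surjective c
  have h0 : (Finset.Icc (-(B : ℤ)) B) = Finset.Ioc (-(B : ℤ) - 1) B := by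
    ext z; simp only [Finset.mem_Icc, Finset.mem_Ioc]; omega
  have h1 : ((Finset.Icc (-(B : ℤ)) B).filter fun z : ℤ => (z : ZMod m) = (v : ZMod m)) =
      (Finset.Ioc (-(B : ℤ) - 1) B).filter fun z : ℤ => z ≡ v [ZMOD m] := by
    rw [h0]
    apply Finset.filter_congr
    intro z _
    exact ZMod.intCast_eq_intCast_iff z v m
  rw [h1]
  have h2 := Int.Ioc_filter_modEq_card (-(B : ℤ) - 1) (B : ℤ) (r := (m : ℤ)) (by exact_mod_cast hm) v
  have hmR : (0 : ℝ) < m := by exact_mod_cast hm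
  have hmQ : (0 : ℚ) < m := by exact_mod_cast hm
  set X := ⌊(((B : ℤ) : ℚ) - v) / ((m : ℤ) : ℚ)⌋ with hX
  set Y := ⌊(((-(B : ℤ) - 1 : ℤ) : ℚ) - v) / ((m : ℤ) : ℚ)⌋ with hY
  have hXY : Y ≤ X := by
    apply Int.floor_le_floor
    apply div_le_div_of_nonneg_right _ (by exact_mod_cast hmQ.le)
    push_cast
    have : (0 : ℚ) ≤ B := by positivity
    linarith
  have h3 : (((((Finset.Ioc (-(B : ℤ) - 1) B).filter fun z : ℤ => z ≡ v [ZMOD m]).card : ℕ) : ℤ)) =
      X - Y := by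
    rw [h2, max_eq_left (by omega)]
  have h4 : (((((Finset.Ioc (-(B : ℤ) - 1) B).filter fun z : ℤ => z ≡ v [ZMOD m]).card : ℕ) : ℚ)) =
      (X : ℚ) - Y := by exact_mod_cast h3
  have a1 := Int.floor_le ((((B : ℤ) : ℚ) - v) / ((m : ℤ) : ℚ))
  have a2 := Int.lt_floor_add_one ((((B : ℤ) : ℚ) - v) / ((m : ℤ) : ℚ))
  have a3 := Int.floor_le ((((-(B : ℤ) - 1 : ℤ) : ℚ) - v) / ((m : ℤ) : ℚ))
  have a4 := Int.lt_floor_add_one ((((-(B : ℤ) - 1 : ℤ) : ℚ) - v) / ((m : ℤ) : ℚ))
  rw [← hX] at a1 a2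
  rw [← hY] at a3 a4
  have h5 : (((B : ℤ) : ℚ) - v) / ((m : ℤ) : ℚ) - (((-(B : ℤ) - 1 : ℤ) : ℚ) - v) / ((m : ℤ) : ℚ) =
      (2 * (B : ℚ) + 1) / m := by
    push_cast
    field_simp
    ring
  have h6 : |(((((Finset.Ioc (-(B : ℤ) - 1) B).filter fun z : ℤ => z ≡ v [ZMOD m]).card : ℕ) : ℚ)) -
      (2 * (B : ℚ) + 1) / m| ≤ 1 := by
    rw [h4, ← h5, abs_le]
    constructor <;> linarith
  have h7 : ((|(((((Finset.Ioc (-(B : ℤ) - 1) B).filter fun z : ℤ => z ≡ v [ZMOD m]).card : ℕ) : ℚ)) -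
      (2 * (B : ℚ) + 1) / m| : ℚ) : ℝ) ≤ ((1 : ℚ) : ℝ) := by exact_mod_cast h6
  push_cast at h7
  exact h7

theorem tendsto_count {m : ℕ} (hm : 0 < m) (c : ZMod m)
    [DecidablePred fun z : ℤ => (z : ZMod m) = c] :
    Tendsto (fun B : ℕ => ((((Finset.Icc (-(B : ℤ)) B).filter
      fun z : ℤ => (z : ZMod m) = c).card : ℕ) : ℝ) / (2 * (B : ℝ) + 1)) atTop (𝓝 (1 / m)) := by
  have hlim : Tendsto (fun B : ℕ => 1 / (2 * (B : ℝ) + 1)) atTop (𝓝 0) := by
    apply Tendsto.div_atTop tendsto_const_nhds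
    apply tendsto_atTop_add_const_right
    exact Tendsto.const_mul_atTop (by norm_num) tendsto_natCast_atTop_atTop
  rw [tendsto_iff_dist_tendsto_zero]
  refine squeeze_zero (fun _ => dist_nonneg) (fun B => ?_) hlim
  rw [Real.dist_eq]
  have hB : (0 : ℝ) < 2 * (B : ℝ) + 1 := by positivity
  have h := count_class hm c B
  have e : ((((Finset.Icc (-(B : ℤ)) B).filter fun z : ℤ => (z : ZMod m) = c).card : ℕ) : ℝ) /
      (2 * (B : ℝ) + 1) - 1 / m = (((((Finset.Icc (-(B : ℤ)) B).filter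
      fun z : ℤ => (z : ZMod m) = c).card : ℕ) : ℝ) - (2 * (B : ℝ) + 1) / m) / (2 * (B : ℝ) + 1) := by
    field_simp
  rw [e, abs_div, abs_of_pos hB]
  exact div_le_div_of_nonneg_right h hB.le

theorem dens_class {r m : ℕ} (hm : 0 < m) (C : Finset (Fin r → ZMod m)) :
    HasDensity {t : Fin r → ℤ | cl m t ∈ C} ((C.card : ℝ) / (m : ℝ) ^ r) := by
  classical
  have key : ∀ B : ℕ, prop {t : Fin r → ℤ | cl m t ∈ C} B = ∑ c ∈ C, ∏ i : Fin r,
      (((((Finset.Icc (-(B : ℤ)) B).filter fun z : ℤ => (z : ZMod m) = c i).card : ℕ) : ℝ) /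
        (2 * (B : ℝ) + 1)) := by
    intro B
    rw [prop_eq (S := {t : Fin r → ℤ | cl m t ∈ C}) ((box r B).filter fun t => cl m t ∈ C)
      (fun t => Finset.mem_filter)]
    have h1 : ((box r B).filter fun t => cl m t ∈ C).card =
        ∑ c ∈ C, ((box r B).filter fun t => cl m t = c).card := by
      rw [Finset.card_eq_sum_card_fiberwise (f := cl m) (t := C)]
      · apply Finset.sum_congr rfl
        intro c hc
        congr 1
        ext t
        simp only [Finset.mem_filter]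
        constructor
        · rintro ⟨⟨h, _⟩, h'⟩; exact ⟨h, h'⟩
        · rintro ⟨h, h'⟩; exact ⟨⟨h, by rw [h']; exact hc⟩, h'⟩
      · intro t ht
        exact (Finset.mem_filter.1 (Finset.mem_coe.1 ht)).2
    have h2 : ∀ c : Fin r → ZMod m, ((box r B).filter fun t => cl m t = c) =
        Fintype.piFinset fun i => (Finset.Icc (-(B : ℤ)) B).filter fun z : ℤ => (z : ZMod m) = c i := by
      intro c
      ext t
      simp only [Finset.mem_filter, Fintype.mem_piFinset, box]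
      constructor
      · rintro ⟨h, h'⟩ i
        exact ⟨h i, congrFun h' i⟩
      · intro h
        exact ⟨fun i => (h i).1, funext fun i => (h i).2⟩
    rw [h1, Nat.cast_sum, Finset.sum_div]
    apply Finset.sum_congr rfl
    intro c _
    rw [h2, Fintype.card_piFinset, Nat.cast_prod, Finset.prod_div_distrib]
    simp only [Finset.prod_const, Finset.card_univ, Fintype.card_fin]
  unfold HasDensity
  have hlim : Tendsto (fun B : ℕ => ∑ c ∈ C, ∏ i : Fin r,
      (((((Finset.Icc (-(B : ℤ)) B).filter fun z : ℤ => (z : ZMod m) = c i).card : ℕ) : ℝ) /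
        (2 * (B : ℝ) + 1))) atTop (𝓝 (∑ _c ∈ C, ∏ _i : Fin r, (1 / (m : ℝ)))) :=
    tendsto_finsetSum _ fun c _ => tendsto_finsetProd _ fun i _ => tendsto_count hm (c i)
  have e : (∑ _c ∈ C, ∏ _i : Fin r, (1 / (m : ℝ))) = (C.card : ℝ) / (m : ℝ) ^ r := by
    simp [div_eq_mul_inv]
  rw [e] at hlim
  exact hlim.congr fun B => (key B).symm

/-- the integral zeros of a nonzero polynomial have density zero -/
theorem dens_zero {r : ℕ} {Δ : MvPolynomial (Fin r) ℤ} (hΔ : Δ ≠ 0) :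
    HasDensity {t : Fin r → ℤ | MvPolynomial.eval t Δ = 0} 0 := by
  classical
  unfold HasDensity
  have hlim : Tendsto (fun B : ℕ => (∑ i, (Δ.degreeOf i : ℝ)) / (2 * (B : ℝ) + 1)) atTop (𝓝 0) := by
    apply Tendsto.div_atTop tendsto_const_nhds
    apply tendsto_atTop_add_const_right
    exact Tendsto.const_mul_atTop (by norm_num) tendsto_natCast_atTop_atTop
  refine squeeze_zero (fun B => prop_nonneg _ B) (fun B => ?_) hlim
  have h := MvPolynomial.schwartz_zippel_sum_degreeOf hΔ fun _ => Finset.Icc (-(B : ℤ)) B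
  rw [prop_eq (S := {t : Fin r → ℤ | MvPolynomial.eval t Δ = 0})
    ((box r B).filter fun t => MvPolynomial.eval t Δ = 0) (fun t => Finset.mem_filter)]
  have hc : ((Finset.Icc (-(B : ℤ)) B).card : ℝ) = 2 * (B : ℝ) + 1 := by
    rw [Int.card_Icc]
    have : ((B : ℤ) + 1 - -(B : ℤ)).toNat = 2 * B + 1 := by omega
    rw [this]; push_cast; ring
  have h' : (((((Fintype.piFinset fun _ : Fin r => Finset.Icc (-(B : ℤ)) B).filter
      fun x => MvPolynomial.eval x Δ = 0).card : ℝ) / ∏ _i : Fin r,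
        ((Finset.Icc (-(B : ℤ)) B).card : ℝ))) ≤
      ∑ i, ((Δ.degreeOf i : ℝ) / ((Finset.Icc (-(B : ℤ)) B).card : ℝ)) := by
    have := (NNRat.cast_le (K := ℝ)).2 h
    push_cast at this
    exact this
  rw [hc] at h'
  rw [← Finset.sum_div] at h'
  simp only [Finset.prod_const, Finset.card_univ, Fintype.card_fin] at h'
  exact h'

end Pool.Agent.H66.MW
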