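import Pool.Agent.H66.MW.Padic

/-!
# Densities of sets of integral vectors with locally constant conditions at all primes (helper66)
-/

set_option autoImplicit false

open Filter Topology Finset

namespace Pool.Agent.H66.MW

variable {r : ℕ}

section local'

variable {p : ℕ} [Fact p.Prime]

theorem cong_of_cl {n : ℕ} {t : Fin r → ℤ} {x : Fin r → ℤ_[p]} (h : cl (p ^ n) t = red n x) :
    Cong n (fun i => (t i : ℤ_[p])) x := by
  rw [← red_intCast] at h
  exact red_eq_iff.1 h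

/-- the density is one only if the condition holds for all `p`-adic points -/
theorem eq_one_iff {Δ : MvPolynomial (Fin r) ℤ} (hΔ : Δ ≠ 0) {H : (Fin r → ℤ_[p]) → Prop}
    (hLC : LC Δ H) {δ : ℝ}
    (hδ : HasDensity ({t : Fin r → ℤ | H fun i => (t i : ℤ_[p])} \
      {t : Fin r → ℤ | MvPolynomial.eval t Δ = 0}) δ) :
    δ = 1 ↔ ∀ x, Pt Δ x → H x := by
  classical
  have hp := (Fact.out : p.Prime)
  constructor
  · intro h1 x hx
    by_contra hno
    obtain ⟨n, hn⟩ := hLC x hx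
    have : NeZero (p ^ n) := ⟨pow_ne_zero _ hp.ne_zero⟩
    have hle := le_outer hδ (pow_pos hp.pos n)
      (U := (Finset.univ : Finset (Fin r → ZMod (p ^ n))).erase (red n x)) (by
        intro t hz ht
        rw [Finset.mem_erase]
        refine ⟨fun he => ?_, Finset.mem_univ _⟩
        exact hno ((hn _ (pt_intCast hz) (cong_of_cl he)).2 ht))
    rw [Finset.card_erase_of_mem (Finset.mem_univ _), Finset.card_univ, Fintype.card_fun,
      ZMod.card, Fintype.card_fin, h1] at hle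
    have hpos : 0 < (p ^ n) ^ r := pow_pos (pow_pos hp.pos n) r
    rw [Nat.cast_sub (by omega)] at hle
    have hposR : (0 : ℝ) < ((p ^ n : ℕ) : ℝ) ^ r := by exact_mod_cast hpos
    rw [le_div_iff₀ hposR] at hle
    push_cast at hle
    linarith
  · intro h
    refine hδ.unique ?_
    have e : ({t : Fin r → ℤ | H fun i => (t i : ℤ_[p])} \
        {t : Fin r → ℤ | MvPolynomial.eval t Δ = 0}) =
        Set.univ \ {t : Fin r → ℤ | MvPolynomial.eval t Δ = 0} := by
      ext t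
      constructor
      · rintro ⟨_, h2⟩; exact ⟨trivial, h2⟩
      · rintro ⟨_, h2⟩; exact ⟨h _ (pt_intCast h2), h2⟩
    rw [e]
    exact dens_compl (dens_zero hΔ)

/-- the density is positive if and only if the condition holds for one `p`-adic point -/
theorem pos_iff {Δ : MvPolynomial (Fin r) ℤ} (hΔ : Δ ≠ 0) {H : (Fin r → ℤ_[p]) → Prop}
    (hLC : LC Δ H) {δ : ℝ}
    (hδ : HasDensity ({t : Fin r → ℤ | H fun i => (t i : ℤ_[p])} \
      {t : Fin r → ℤ | MvPolynomial.eval t Δ = 0}) δ) :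
    0 < δ ↔ ∃ x, Pt Δ x ∧ H x := by
  classical
  have hp := (Fact.out : p.Prime)
  constructor
  · intro h1
    by_contra hno
    push Not at hno
    have hle := le_outer hδ one_pos (U := (∅ : Finset (Fin r → ZMod 1))) (by
      intro t hz ht
      exact absurd ht (hno _ (pt_intCast hz)))
    simp at hle
    linarith
  · rintro ⟨x, hx, hH⟩
    obtain ⟨n, hn⟩ := hLC x hx
    have hle := inner_le (dens_zero hΔ) hδ (pow_pos hp.pos n)
      (G := ({red n x} : Finset (Fin r → ZMod (p ^ n)))) (by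
        intro t hz ht
        rw [Finset.mem_singleton] at ht
        exact (hn _ (pt_intCast hz) (cong_of_cl ht)).1 hH)
    refine lt_of_lt_of_le ?_ hle
    have hpR : (0 : ℝ) < p := by exact_mod_cast hp.pos
    rw [Finset.card_singleton]
    push_cast
    positivity

theorem pt_iff {Δ : MvPolynomial (Fin r) ℤ} (t : Fin r → ℤ) :
    MvPolynomial.eval₂ (Int.castRingHom ℤ) t Δ ≠ 0 ↔ ¬ MvPolynomial.eval t Δ = 0 := by
  have : (Int.castRingHom ℤ) = RingHom.id ℤ := RingHom.ext_int _ _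
  rw [this, MvPolynomial.eval₂_id]

end local'

/-- The density of the vectors which satisfy locally constant conditions at all primes. -/
theorem main {Δ : MvPolynomial (Fin r) ℤ} (hΔ : Δ ≠ 0)
    (H : ∀ (p : ℕ) [Fact p.Prime], (Fin r → ℤ_[p]) → Prop)
    (hLC : ∀ (p : ℕ) [Fact p.Prime], LC Δ (H p)) {M : ℕ} (hM : 0 < M)
    (hgood : ∀ (p : ℕ) [Fact p.Prime], ¬ p ∣ M → ∀ x, Pt Δ x → H p x) :
    ∃ δ : ℕ → ℝ,
      (∀ (p : ℕ) [Fact p.Prime],
        HasDensity {t : Fin r → ℤ | MvPolynomial.eval₂ (Int.castRingHom ℤ) t Δ ≠ 0 ∧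
          H p fun i => (t i : ℤ_[p])} (δ p) ∧
        (¬ p ∣ M → δ p = 1) ∧
        (δ p = 1 ↔ ∀ x, Pt Δ x → H p x) ∧ (0 < δ p ↔ ∃ x, Pt Δ x ∧ H p x)) ∧
      (∀ s : Finset ℕ, (∀ p ∈ s, p.Prime) →
        HasDensity {t : Fin r → ℤ | MvPolynomial.eval₂ (Int.castRingHom ℤ) t Δ ≠ 0 ∧
          ∀ (p : ℕ) [Fact p.Prime], p ∈ s → H p fun i => (t i : ℤ_[p])} (∏ p ∈ s, δ p)) ∧
      HasDensity {t : Fin r → ℤ | MvPolynomial.eval₂ (Int.castRingHom ℤ) t Δ ≠ 0 ∧
          ∀ (p : ℕ) [Fact p.Prime], H p fun i => (t i : ℤ_[p])} (∏ p ∈ M.primeFactors, δ p) ∧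
      (∏ p ∈ M.primeFactors, δ p = 1 ↔ ∀ (p : ℕ) [Fact p.Prime], ∀ x, Pt Δ x → H p x) ∧
      (0 < ∏ p ∈ M.primeFactors, δ p ↔ ∀ (p : ℕ) [Fact p.Prime], ∃ x, Pt Δ x ∧ H p x) := by
  classical
  set Z : Set (Fin r → ℤ) := {t | MvPolynomial.eval t Δ = 0} with hZdef
  have hZ : HasDensity Z 0 := dens_zero hΔ
  let A : ℕ → Set (Fin r → ℤ) := fun p =>
    {t | ∀ hp : Fact p.Prime, @H p hp fun i => (t i : ℤ_[p])}
  have hAeq : ∀ (p : ℕ) [hp : Fact p.Prime], A p = {t : Fin r → ℤ | H p fun i => (t i : ℤ_[p])} := by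
    intro p hp
    ext t
    exact ⟨fun h => h hp, fun h _ => h⟩
  have hAppr : ∀ (p : ℕ), p.Prime → Appr Z {p} (A p) := by
    intro p hp
    have : Fact p.Prime := ⟨hp⟩
    rw [hAeq p]
    exact appr_padic hΔ (hLC p)
  have hex : ∀ p : ℕ, ∃ d : ℝ, p.Prime → HasDensity (A p \ Z) d := by
    intro p
    by_cases hp : p.Prime
    · obtain ⟨d, hd⟩ := exists_dens hZ (hAppr p hp)
      exact ⟨d, fun _ => hd⟩
    · exact ⟨0, fun h => absurd h hp⟩
  choose δ hδ using hex
  have hδ' : ∀ (p : ℕ) [Fact p.Prime], HasDensity ({t : Fin r → ℤ | H p fun i => (t i : ℤ_[p])} \ Z)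
      (δ p) := by
    intro p _
    have h := hδ p Fact.out
    rwa [hAeq p] at h
  have hone : ∀ (p : ℕ) [Fact p.Prime], ¬ p ∣ M → δ p = 1 := fun p _ hp =>
    (eq_one_iff hΔ (hLC p) (hδ' p)).2 (hgood p hp)
  have hfin : ∀ s : Finset ℕ, (∀ p ∈ s, p.Prime) →
      HasDensity ({t | ∀ p ∈ s, t ∈ A p} \ Z) (∏ p ∈ s, δ p) := fun s hs =>
    (appr_biInter hZ s A (fun p hp => hAppr p (hs p hp)) δ fun p hp => hδ p (hs p hp)).2
  have hMp : ∀ p ∈ M.primeFactors, p.Prime := fun p hp => (Nat.mem_primeFactors.1 hp).1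
  -- bounds of the densities
  have hδ1 : ∀ p : ℕ, p.Prime → δ p ≤ 1 := fun p hp =>
    le_of_tendsto_of_tendsto' (hδ p hp) (tendsto_const_nhds (x := (1 : ℝ))) fun B => by
      have := prop_mono (Set.subset_univ (A p \ Z)) B
      rwa [prop_univ] at this
  have hδ0 : ∀ p : ℕ, p.Prime → 0 ≤ δ p := fun p hp =>
    ge_of_tendsto' (hδ p hp) fun B => prop_nonneg _ B
  refine ⟨δ, fun p hp => ⟨?_, hone p, eq_one_iff hΔ (hLC p) (hδ' p), pos_iff hΔ (hLC p) (hδ' p)⟩,
    ?_, ?_, ?_, ?_⟩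
  · have e : {t : Fin r → ℤ | MvPolynomial.eval₂ (Int.castRingHom ℤ) t Δ ≠ 0 ∧
        H p fun i => (t i : ℤ_[p])} = {t : Fin r → ℤ | H p fun i => (t i : ℤ_[p])} \ Z := by
      ext t
      exact ⟨fun h => ⟨h.2, (pt_iff t).1 h.1⟩, fun h => ⟨(pt_iff t).2 h.2, h.1⟩⟩
    rw [e]
    exact hδ' p
  · intro s hs
    have e : {t : Fin r → ℤ | MvPolynomial.eval₂ (Int.castRingHom ℤ) t Δ ≠ 0 ∧
          ∀ (p : ℕ) [Fact p.Prime], p ∈ s → H p fun i => (t i : ℤ_[p])} =
        {t | ∀ p ∈ s, t ∈ A p} \ Z := by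
      ext t
      constructor
      · intro h
        exact ⟨fun p hp hpf => h.2 p hp, (pt_iff t).1 h.1⟩
      · intro h
        exact ⟨(pt_iff t).2 h.2, fun p hpf hp => h.1 p hp hpf⟩
    rw [e]
    exact hfin s hs
  · have e : {t : Fin r → ℤ | MvPolynomial.eval₂ (Int.castRingHom ℤ) t Δ ≠ 0 ∧
          ∀ (p : ℕ) [Fact p.Prime], H p fun i => (t i : ℤ_[p])} =
        {t | ∀ p ∈ M.primeFactors, t ∈ A p} \ Z := by
      ext t
      constructor
      · intro h
        exact ⟨fun p hp hpf => h.2 p, (pt_iff t).1 h.1⟩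
      · intro h
        refine ⟨(pt_iff t).2 h.2, fun p hpf => ?_⟩
        by_cases hpM : p ∣ M
        · exact h.1 p (Nat.mem_primeFactors.2 ⟨hpf.out, hpM, hM.ne'⟩) hpf
        · exact hgood p hpM _ (pt_intCast h.2)
    rw [e]
    exact hfin _ hMp
  · constructor
    · intro h p hp
      by_cases hpM : p ∣ M
      · have hpm : p ∈ M.primeFactors := Nat.mem_primeFactors.2 ⟨hp.out, hpM, hM.ne'⟩
        apply (eq_one_iff hΔ (hLC p) (hδ' p)).1
        rw [← Finset.mul_prod_erase _ _ hpm] at h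
        have h1 : ∏ q ∈ M.primeFactors.erase p, δ q ≤ 1 :=
          Finset.prod_le_one (fun q hq => hδ0 q (hMp q (Finset.mem_of_mem_erase hq)))
            fun q hq => hδ1 q (hMp q (Finset.mem_of_mem_erase hq))
        have h2 := hδ1 p hp.out
        have h3 := hδ0 p hp.out
        nlinarith
      · exact hgood p hpM
    · intro h
      apply Finset.prod_eq_one
      intro p hp
      have : Fact p.Prime := ⟨hMp p hp⟩
      exact (eq_one_iff hΔ (hLC p) (hδ' p)).2 (h p)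
  · constructor
    · intro h p hp
      by_cases hpM : p ∣ M
      · have hpm : p ∈ M.primeFactors := Nat.mem_primeFactors.2 ⟨hp.out, hpM, hM.ne'⟩
        apply (pos_iff hΔ (hLC p) (hδ' p)).1
        rcases (hδ0 p hp.out).lt_or_eq with h1 | h1
        · exact h1
        · rw [Finset.prod_eq_zero hpm h1.symm] at h
          exact absurd h (lt_irrefl _)
      · apply (pos_iff hΔ (hLC p) (hδ' p)).1
        rw [hone p hpM]
        exact one_pos
    · intro h
      apply Finset.prod_pos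
      intro p hp
      have : Fact p.Prime := ⟨hMp p hp⟩
      exact (pos_iff hΔ (hLC p) (hδ' p)).2 (h p)

end Pool.Agent.H66.MW
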