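import Pool.Agent.H66.MW.Appr

/-!
# Locally constant conditions on `p`-adic points are approximated by residue classes (helper66)
-/

set_option autoImplicit false

open Filter Topology Finset

namespace Pool.Agent.H66.MW

variable {r : ℕ} {p : ℕ} [Fact p.Prime]

/-- `x` is not a zero of `Δ` -/
def Pt (Δ : MvPolynomial (Fin r) ℤ) (x : Fin r → ℤ_[p]) : Prop :=
  MvPolynomial.eval₂ (Int.castRingHom ℤ_[p]) x Δ ≠ 0

/-- congruence modulo `p ^ n` -/
def Cong (n : ℕ) (x y : Fin r → ℤ_[p]) : Prop := ∀ i, (p : ℤ_[p]) ^ n ∣ x i - y i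

theorem Cong.symm {n : ℕ} {x y : Fin r → ℤ_[p]} (h : Cong n x y) : Cong n y x := by
  intro i
  have := h i
  rw [← dvd_neg, neg_sub] at this
  exact this

theorem Cong.trans {n : ℕ} {x y z : Fin r → ℤ_[p]} (h : Cong n x y) (h' : Cong n y z) :
    Cong n x z := by
  intro i
  have := dvd_add (h i) (h' i)
  rwa [sub_add_sub_cancel] at this

theorem Cong.mono {n m : ℕ} (hmn : m ≤ n) {x y : Fin r → ℤ_[p]} (h : Cong n x y) : Cong m x y :=
  fun i => (pow_dvd_pow _ hmn).trans (h i)

theorem Cong.add {n : ℕ} {x y : Fin r → ℤ_[p]} (h : Cong n x y) (z : Fin r → ℤ_[p]) :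
    Cong n (x + z) (y + z) := by
  intro i
  have := h i
  simpa using this

/-- reduction modulo `p ^ n` -/
noncomputable def red (n : ℕ) (x : Fin r → ℤ_[p]) : Fin r → ZMod (p ^ n) :=
  fun i => PadicInt.toZModPow n (x i)

theorem red_eq_iff {n : ℕ} {x y : Fin r → ℤ_[p]} : red n x = red n y ↔ Cong n x y := by
  unfold red Cong
  rw [funext_iff]
  refine forall_congr' fun i => ?_
  rw [← sub_eq_zero, ← map_sub, ← RingHom.mem_ker, PadicInt.ker_toZModPow,
    Ideal.mem_span_singleton]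

theorem red_surjective (n : ℕ) : Function.Surjective (red n : (Fin r → ℤ_[p]) → _) := by
  intro c
  refine ⟨fun i => ((c i).val : ℤ_[p]), ?_⟩
  have : NeZero (p ^ n) := ⟨pow_ne_zero _ (Fact.out : p.Prime).ne_zero⟩
  funext i
  unfold red
  rw [map_natCast, ZMod.natCast_zmod_val]

theorem red_intCast (n : ℕ) (t : Fin r → ℤ) : red n (fun i => (t i : ℤ_[p])) = cl (p ^ n) t := by
  funext i
  unfold red cl
  rw [map_intCast]

theorem red_add (n : ℕ) (x : Fin r → ℤ_[p]) (y : Fin r → ℕ) :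
    red n (x + fun i => (y i : ℤ_[p])) = red n x + fun i => (y i : ZMod (p ^ n)) := by
  funext i
  simp [red]

/-- both kinds of points are near `x` -/
def Und (Δ : MvPolynomial (Fin r) ℤ) (H : (Fin r → ℤ_[p]) → Prop) (n : ℕ) (x : Fin r → ℤ_[p]) :
    Prop :=
  ∃ t t', Pt Δ t ∧ Pt Δ t' ∧ Cong n t x ∧ Cong n t' x ∧ H t ∧ ¬ H t'

theorem Und.of_cong {Δ : MvPolynomial (Fin r) ℤ} {H : (Fin r → ℤ_[p]) → Prop} {n m : ℕ}
    (hmn : m ≤ n) {x y : Fin r → ℤ_[p]} (h : Und Δ H n x) (hxy : Cong m x y) : Und Δ H m y := by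
  obtain ⟨t, t', h1, h2, h3, h4, h5, h6⟩ := h
  exact ⟨t, t', h1, h2, (h3.mono hmn).trans hxy, (h4.mono hmn).trans hxy, h5, h6⟩

/-- local constancy -/
def LC (Δ : MvPolynomial (Fin r) ℤ) (H : (Fin r → ℤ_[p]) → Prop) : Prop :=
  ∀ x, Pt Δ x → ∃ n : ℕ, ∀ y, Pt Δ y → Cong n y x → (H x ↔ H y)

theorem cong_of_tendsto {x : ℕ → Fin r → ℤ_[p]} {a : Fin r → ℤ_[p]}
    (h : Tendsto x atTop (𝓝 a)) (n : ℕ) : ∀ᶠ k in atTop, Cong n (x k) a := by
  unfold Cong
  rw [eventually_all]
  intro i
  have h1 : Tendsto (fun k => x k i) atTop (𝓝 (a i)) := (tendsto_pi_nhds.1 h) i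
  have hp : (0 : ℝ) < (p : ℝ) ^ (-(n : ℤ)) := by
    have : (0 : ℝ) < p := by exact_mod_cast (Fact.out : p.Prime).pos
    positivity
  filter_upwards [Metric.tendsto_nhds.1 h1 _ hp] with k hk
  rw [dist_eq_norm] at hk
  have := (PadicInt.norm_le_pow_iff_mem_span_pow _ n).1 hk.le
  rwa [Ideal.mem_span_singleton] at this

/-- the classes in which the condition is not constant are few -/
theorem und_small {Δ : MvPolynomial (Fin r) ℤ} (hΔ : Δ ≠ 0) {H : (Fin r → ℤ_[p]) → Prop}
    (hLC : LC Δ H) {ε : ℝ} (hε : 0 < ε) : ∃ n : ℕ, ∀ V : Finset (Fin r → ZMod (p ^ n)),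
      (∀ c ∈ V, ∃ x, red n x = c ∧ Und Δ H n x) →
        (V.card : ℝ) ≤ ε * ((p ^ n : ℕ) : ℝ) ^ r := by
  classical
  by_contra hcon
  push Not at hcon
  -- the polynomial over `ℤ_p`
  set Δ' : MvPolynomial (Fin r) ℤ_[p] := MvPolynomial.map (Int.castRingHom ℤ_[p]) Δ with hΔ'
  have hΔ'0 : Δ' ≠ 0 := by
    intro h
    apply hΔ
    apply MvPolynomial.map_injective (Int.castRingHom ℤ_[p]) Int.cast_injective
    rw [map_zero]
    exact h
  set W : ℝ := ∑ i, (Δ'.degreeOf i : ℝ) with hW
  obtain ⟨D, hD⟩ := exists_nat_gt (W / ε)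
  have hW0 : 0 ≤ W := by positivity
  have hD0 : 0 < D := by
    rcases Nat.eq_zero_or_pos D with h | h
    · subst h
      have : 0 ≤ W / ε := by positivity
      simp at hD
      linarith
    · exact h
  have hDR : (0 : ℝ) < D := by exact_mod_cast hD0
  have hWD : W < ε * D := by
    rw [div_lt_iff₀ hε] at hD
    linarith
  let Y : Finset (Fin r → ℕ) := Fintype.piFinset fun _ => Finset.range D
  have hYc : (Y.card : ℝ) = (D : ℝ) ^ r := by
    simp [Y, Fintype.card_piFinset]
  have hY0 : (0 : ℝ) < Y.card := by rw [hYc]; positivity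
  -- one good translate at each level
  have step : ∀ n : ℕ, ∃ x : Fin r → ℤ_[p], ε * Y.card <
      ((Y.filter fun y => Und Δ H n (x + fun i => (y i : ℤ_[p]))).card : ℝ) := by
    intro n
    obtain ⟨V, hV, hVc⟩ := hcon n
    have : NeZero (p ^ n) := ⟨pow_ne_zero _ (Fact.out : p.Prime).ne_zero⟩
    have hsum : ∑ c : Fin r → ZMod (p ^ n),
        (Y.filter fun y => c + (fun i => (y i : ZMod (p ^ n))) ∈ V).card = Y.card * V.card := by
      have e1 : ∀ c : Fin r → ZMod (p ^ n),
          (Y.filter fun y => c + (fun i => (y i : ZMod (p ^ n))) ∈ V).card =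
            ∑ y ∈ Y, if c + (fun i => (y i : ZMod (p ^ n))) ∈ V then 1 else 0 := by
        intro c; rw [Finset.card_filter]
      simp_rw [e1]
      rw [Finset.sum_comm]
      have e2 : ∀ y ∈ Y, (∑ c : Fin r → ZMod (p ^ n),
          if c + (fun i => (y i : ZMod (p ^ n))) ∈ V then 1 else 0) = V.card := by
        intro y _
        rw [← Finset.card_filter]
        have e3 : (Finset.univ.filter fun c : Fin r → ZMod (p ^ n) =>
            c + (fun i => (y i : ZMod (p ^ n))) ∈ V) =
            V.map (Equiv.addRight (fun i => (y i : ZMod (p ^ n)))).symm.toEmbedding := by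
          ext c
          rw [Finset.mem_map_equiv]
          simp
        rw [e3, Finset.card_map]
      rw [Finset.sum_congr rfl e2, Finset.sum_const, smul_eq_mul]
    have hex : ∃ c : Fin r → ZMod (p ^ n), ε * Y.card <
        ((Y.filter fun y => c + (fun i => (y i : ZMod (p ^ n))) ∈ V).card : ℝ) := by
      by_contra hno
      push Not at hno
      have h1 : (∑ c : Fin r → ZMod (p ^ n),
          ((Y.filter fun y => c + (fun i => (y i : ZMod (p ^ n))) ∈ V).card : ℝ)) ≤
          ∑ _c : Fin r → ZMod (p ^ n), ε * Y.card := Finset.sum_le_sum fun c _ => hno c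
      rw [← Nat.cast_sum, hsum, Finset.sum_const, Finset.card_univ, Fintype.card_fun, ZMod.card,
        Fintype.card_fin, nsmul_eq_mul] at h1
      push_cast at h1 hVc
      have h2 : (Y.card : ℝ) * (ε * ((p : ℝ) ^ n) ^ r) < Y.card * V.card :=
        mul_lt_mul_of_pos_left hVc hY0
      nlinarith
    obtain ⟨c, hc⟩ := hex
    obtain ⟨x, rfl⟩ := red_surjective n c
    refine ⟨x, hc.trans_le ?_⟩
    have hsub : (Y.filter fun y => red n x + (fun i => (y i : ZMod (p ^ n))) ∈ V) ⊆
        (Y.filter fun y => Und Δ H n (x + fun i => (y i : ℤ_[p]))) := by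
      intro y hy
      rw [Finset.mem_filter] at hy ⊢
      refine ⟨hy.1, ?_⟩
      rw [← red_add] at hy
      obtain ⟨z, hz, hu⟩ := hV _ hy.2
      exact hu.of_cong le_rfl (red_eq_iff.1 hz)
    exact_mod_cast Finset.card_le_card hsub
  choose x hx using step
  obtain ⟨a, φ, hφ, hlim⟩ := CompactSpace.tendsto_subseq x
  -- the zeros
  have hzero : ((Y.filter fun y => ¬ Pt Δ (a + fun i => (y i : ℤ_[p]))).card : ℝ) < ε * Y.card := by
    let S : Fin r → Finset ℤ_[p] := fun i => (Finset.range D).image fun y : ℕ => a i + (y : ℤ_[p])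
    have hSc : ∀ i, (S i).card = D := by
      intro i
      rw [Finset.card_image_of_injective, Finset.card_range]
      intro y y' h
      have : (y : ℤ_[p]) = y' := add_left_cancel h
      exact_mod_cast this
    have hSZ := MvPolynomial.schwartz_zippel_sum_degreeOf hΔ'0 S
    have hSZ' : ((((Fintype.piFinset fun i => S i).filter
        fun z => MvPolynomial.eval z Δ' = 0).card : ℝ) / ∏ i : Fin r, ((S i).card : ℝ)) ≤
        ∑ i, ((Δ'.degreeOf i : ℝ) / ((S i).card : ℝ)) := by
      have := (NNRat.cast_le (K := ℝ)).2 hSZ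
      push_cast at this
      exact this
    simp only [hSc, Finset.prod_const, Finset.card_univ, Fintype.card_fin] at hSZ'
    rw [← Finset.sum_div, ← hW] at hSZ'
    have hDr : (0 : ℝ) < (D : ℝ) ^ r := by positivity
    rw [div_le_iff₀ hDr] at hSZ'
    have hle : ((Y.filter fun y => ¬ Pt Δ (a + fun i => (y i : ℤ_[p]))).card : ℝ) ≤
        (((Fintype.piFinset fun i => S i).filter fun z => MvPolynomial.eval z Δ' = 0).card : ℝ) := by
      have : (Y.filter fun y => ¬ Pt Δ (a + fun i => (y i : ℤ_[p]))).card ≤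
          ((Fintype.piFinset fun i => S i).filter fun z => MvPolynomial.eval z Δ' = 0).card := by
        apply Finset.card_le_card_of_injOn fun y => (a + fun i => (y i : ℤ_[p]))
        · intro y hy
          have hy' := Finset.mem_filter.1 (Finset.mem_coe.1 hy)
          refine Finset.mem_coe.2 (Finset.mem_filter.2 ⟨?_, ?_⟩)
          · rw [Fintype.mem_piFinset]
            intro i
            refine Finset.mem_image.2 ⟨y i, ?_, rfl⟩
            exact (Fintype.mem_piFinset.1 hy'.1) i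
          · have h1 := hy'.2
            unfold Pt at h1
            rw [not_not] at h1
            rw [hΔ', MvPolynomial.eval_map]
            exact h1
        · intro y _ y' _ h
          funext i
          have h1 := congrFun (add_left_cancel h) i
          have h2 : (y i : ℤ_[p]) = (y' i : ℤ_[p]) := h1
          exact_mod_cast h2
      exact_mod_cast this
    calc ((Y.filter fun y => ¬ Pt Δ (a + fun i => (y i : ℤ_[p]))).card : ℝ)
        ≤ W / D * (D : ℝ) ^ r := hle.trans hSZ'
      _ < ε * (D : ℝ) ^ r := by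
          apply mul_lt_mul_of_pos_right _ hDr
          rw [div_lt_iff₀ hDR]
          exact hWD
      _ = ε * Y.card := by rw [hYc]
  -- at a high level only the zeros are left
  have hN : ∃ N : ℕ, ∀ y ∈ Y, Pt Δ (a + fun i => (y i : ℤ_[p])) →
      ¬ Und Δ H N (a + fun i => (y i : ℤ_[p])) := by
    have h1 : ∀ y : Fin r → ℕ, ∃ n : ℕ, Pt Δ (a + fun i => (y i : ℤ_[p])) →
        ∀ n', n ≤ n' → ¬ Und Δ H n' (a + fun i => (y i : ℤ_[p])) := by
      intro y
      by_cases hpt : Pt Δ (a + fun i => (y i : ℤ_[p]))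
      · obtain ⟨n, hn⟩ := hLC _ hpt
        refine ⟨n, fun _ n' hn' hund => ?_⟩
        obtain ⟨t, t', k1, k2, k3, k4, k5, k6⟩ := hund
        exact k6 (((hn t' k2 (k4.mono hn')).1) (((hn t k1 (k3.mono hn')).2) k5))
      · exact ⟨0, fun h => absurd h hpt⟩
    choose n hn using h1
    refine ⟨Y.sup n, fun y hy hpt => hn y hpt _ (Finset.le_sup hy)⟩
  obtain ⟨N, hN⟩ := hN
  obtain ⟨k, hk1, hk2⟩ := ((cong_of_tendsto hlim N).and (hφ.tendsto_atTop.eventually_ge_atTop N)).exists
  have h1 := hx (φ k)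
  have hsub : (Y.filter fun y => Und Δ H (φ k) (x (φ k) + fun i => (y i : ℤ_[p]))) ⊆
      (Y.filter fun y => ¬ Pt Δ (a + fun i => (y i : ℤ_[p]))) := by
    intro y hy
    rw [Finset.mem_filter] at hy ⊢
    refine ⟨hy.1, fun hpt => hN y hy.1 hpt ?_⟩
    exact hy.2.of_cong hk2 (hk1.add _)
  have h2 : ((Y.filter fun y => Und Δ H (φ k) (x (φ k) + fun i => (y i : ℤ_[p]))).card : ℝ) ≤
      ((Y.filter fun y => ¬ Pt Δ (a + fun i => (y i : ℤ_[p]))).card : ℝ) := by
    exact_mod_cast Finset.card_le_card hsub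
  linarith

theorem pt_intCast {Δ : MvPolynomial (Fin r) ℤ} {t : Fin r → ℤ}
    (h : MvPolynomial.eval t Δ ≠ 0) : Pt Δ fun i => (t i : ℤ_[p]) := by
  have h1 : MvPolynomial.eval₂ (Int.castRingHom ℤ_[p]) (fun i => (t i : ℤ_[p])) Δ =
      Int.castRingHom ℤ_[p] (MvPolynomial.eval t Δ) := by
    rw [← MvPolynomial.eval₂_id, MvPolynomial.eval₂_comp_left]
    congr 1
  unfold Pt
  rw [h1]
  intro h2
  apply h
  have : ((MvPolynomial.eval t Δ : ℤ) : ℤ_[p]) = 0 := h2
  exact_mod_cast this

/-- a locally constant condition is approximated by residue classes modulo powers of `p` -/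
theorem appr_padic {Δ : MvPolynomial (Fin r) ℤ} (hΔ : Δ ≠ 0) {H : (Fin r → ℤ_[p]) → Prop}
    (hLC : LC Δ H) : Appr {t : Fin r → ℤ | MvPolynomial.eval t Δ = 0} {p}
      {t : Fin r → ℤ | H fun i => (t i : ℤ_[p])} := by
  classical
  intro ε hε
  obtain ⟨n, hn⟩ := und_small hΔ hLC hε
  have hp := (Fact.out : p.Prime)
  have : NeZero (p ^ n) := ⟨pow_ne_zero _ hp.ne_zero⟩
  let G : Finset (Fin r → ZMod (p ^ n)) :=
    Finset.univ.filter fun c => ∀ t, red n t = c → Pt Δ t → H t
  let V : Finset (Fin r → ZMod (p ^ n)) :=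
    Finset.univ.filter fun c => ∃ x, red n x = c ∧ Und Δ H n x
  refine ⟨p ^ n, pow_pos hp.pos n, ?_, G, G ∪ V, Finset.subset_union_left, ?_, ?_, ?_⟩
  · intro q hq hqn
    exact (Nat.prime_dvd_prime_iff_eq hq hp).1 (hq.dvd_of_dvd_pow hqn)
  · intro t hz ht
    exact (Finset.mem_filter.1 ht).2 _ (red_intCast n t) (pt_intCast hz)
  · intro t hz ht
    rw [Finset.mem_union]
    by_cases hG : cl (p ^ n) t ∈ G
    · exact Or.inl hG
    · right
      have : ∃ t', red n t' = cl (p ^ n) t ∧ Pt Δ t' ∧ ¬ H t' := by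
        by_contra hno
        push Not at hno
        exact hG (Finset.mem_filter.2 ⟨Finset.mem_univ _, fun t' h1 h2 => hno t' h1 h2⟩)
      obtain ⟨t', h1, h2, h3⟩ := this
      refine Finset.mem_filter.2 ⟨Finset.mem_univ _, fun i => (t i : ℤ_[p]), red_intCast n t,
        fun i => (t i : ℤ_[p]), t', pt_intCast hz, h2, fun i => by simp, ?_, ht, h3⟩
      rw [← red_intCast] at h1
      exact red_eq_iff.1 h1
  · have h1 := hn V fun c hc => (Finset.mem_filter.1 hc).2
    have h2 : ((G ∪ V).card : ℝ) ≤ G.card + V.card := by exact_mod_cast Finset.card_union_le G V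
    linarith

end Pool.Agent.H66.MW
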